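import Pool.Agent.W193.PM.Perp

/-! PM-DIR: the perpendicular direction is constant. -/

set_option autoImplicit false

namespace Pool.Agent.W193.PM

open Set Filter Topology Pool.Agent.W553.PM

theorem loc_const {X Y : Type*} [TopologicalSpace X] {s : Set X} (hs : IsPreconnected s)
    (f : X → Y) (h : ∀ x ∈ s, ∀ᶠ y in 𝓝 x, y ∈ s → f y = f x) :
    ∀ x ∈ s, ∀ y ∈ s, f x = f y := by
  intro x hx y hy
  have : PreconnectedSpace s := Subtype.preconnectedSpace hs
  have hl : IsLocallyConstant fun z : s => f z := by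
    rw [IsLocallyConstant.iff_eventually_eq]
    intro z
    have h1 := (continuous_subtype_val.tendsto z).eventually (h z.1 z.2)
    filter_upwards [h1] with w hw
    exact hw w.2
  exact hl.apply_eq_of_isPreconnected (isPreconnected_univ) (mem_univ (⟨x, hx⟩ : s))
    (mem_univ (⟨y, hy⟩ : s))

variable {M : Set P} {d : P → P → ℝ} {n : P → P → P}

theorem line_cvx (H : PMet M d) (O u : P) : Convex ℝ {t : ℝ | O + t • u ∈ M} := by
  intro x hx y hy a b ha hb hab
  simp only [mem_setOf_eq] at hx hy ⊢
  have e : O + (a • x + b • y) • u = a • (O + x • u) + b • (O + y • u) := by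
    have : b = 1 - a := by linarith
    subst this
    simp only [smul_eq_mul]
    module
  rw [e]
  exact H.cvx hx hy ha hb hab

theorem T_const (h1 : S_ncont) (h2 : S_nhom) (h3 : S_lip) (h4 : S_ell) (h5 : S_deriv0) :
    S_const := by
  intro M d n H N O hO u hu t ht
  have hnc := h1 M d n H N
  have hE : ∀ Y ∈ M, EllAt n Y := fun Y hY => h4 M d n H N Y hY
  set I : Set ℝ := {t : ℝ | O + t • u ∈ M} with hI
  have hIp : IsPreconnected I := (line_cvx H O u).isPreconnected
  have hun : 0 < ‖u‖ := norm_pos_iff.2 hu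
  have hgc : Continuous fun s : ℝ => O + s • u := by fun_prop
  have key : ∀ x ∈ I, ∀ᶠ y in 𝓝 x, y ∈ I →
      (fun t : ℝ => n (O + t • u) u) y = (fun t : ℝ => n (O + t • u) u) x := by
    intro x hx
    obtain ⟨ρ, hρ, C, hC⟩ := h3 M d n H N hnc (O + x • u) hx
    -- small interval
    set r : ℝ := ρ / (8 * ‖u‖) with hr
    have hr0 : 0 < r := by positivity
    set g : ℝ → P := fun t : ℝ => n (O + t • u) u with hg
    have hmem : ∀ s ∈ Icc (x - 2 * r) (x + 2 * r), dist (O + s • u) (O + x • u) < ρ := by
      intro s hs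
      rw [dist_eq_norm]
      have e : O + s • u - (O + x • u) = (s - x) • u := by module
      rw [e, norm_smul, Real.norm_eq_abs]
      have : |s - x| ≤ 2 * r := by rw [abs_le]; constructor <;> linarith [hs.1, hs.2]
      calc |s - x| * ‖u‖ ≤ 2 * r * ‖u‖ := by gcongr
        _ = ρ / 4 := by rw [hr]; field_simp; ring
        _ < ρ := by linarith
    have hJM : ∀ s ∈ Icc (x - 2 * r) (x + 2 * r), O + s • u ∈ M := by
      intro s hs
      have hu1 : ‖(‖u‖)⁻¹ • u‖ = 1 := by
        rw [norm_smul, norm_inv, norm_norm]; exact inv_mul_cancel₀ hun.ne'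
      exact (hC (O + s • u) (hmem s hs) _ hu1 0 (by simpa using hρ)).1
    have hlip : LipschitzOnWith (Real.toNNReal |C|) g (Icc (x - 2 * r) (x + 2 * r)) := by
      refine LipschitzOnWith.of_dist_le_mul fun s hs s' hs' => ?_
      have hu1 : ‖(‖u‖)⁻¹ • u‖ = 1 := by
        rw [norm_smul, norm_inv, norm_norm]; exact inv_mul_cancel₀ hun.ne'
      have hlt : |(s - s') * ‖u‖| < ρ := by
        rw [abs_mul, abs_of_pos hun]
        have : |s - s'| ≤ 4 * r := by
          rw [abs_le]; constructor <;> linarith [hs.1, hs.2, hs'.1, hs'.2]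
        calc |s - s'| * ‖u‖ ≤ 4 * r * ‖u‖ := by gcongr
          _ = ρ / 2 := by rw [hr]; field_simp; ring
          _ < ρ := by linarith
      have hmain := (hC (O + s' • u) (hmem s' hs') _ hu1 ((s - s') * ‖u‖) hlt).2.2
      have e : O + s' • u + ((s - s') * ‖u‖) • ((‖u‖)⁻¹ • u) = O + s • u := by
        rw [smul_smul, mul_assoc, mul_inv_cancel₀ hun.ne', mul_one]
        module
      rw [e] at hmain
      have hh1 := h2 M d n H N (O + s • u) (hJM s hs) u hu (‖u‖)⁻¹ (inv_ne_zero hun.ne')
      have hh2 := h2 M d n H N (O + s' • u) (hJM s' hs') u hu (‖u‖)⁻¹ (inv_ne_zero hun.ne')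
      rw [inv_inv] at hh1 hh2
      rw [hh1, hh2, ← smul_sub, norm_smul, norm_norm, abs_mul, abs_of_pos hun] at hmain
      rw [dist_eq_norm, Real.dist_eq, Real.coe_toNNReal _ (abs_nonneg _)]
      have hmain2 : ‖u‖ * ‖g s - g s'‖ ≤ ‖u‖ * (C * |s - s'|) := by
        calc ‖u‖ * ‖g s - g s'‖ ≤ C * (|s - s'| * ‖u‖) := hmain
          _ = ‖u‖ * (C * |s - s'|) := by ring
      have hmain3 := le_of_mul_le_mul_left hmain2 hun
      refine hmain3.trans ?_
      gcongr
      exact le_abs_self C
    have hae := hlip.ae_differentiableWithinAt_of_mem_real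
    have hac : AbsolutelyContinuousOnInterval g (x - r) (x + r) := by
      apply LipschitzOnWith.absolutelyContinuousOnInterval (K := Real.toNNReal |C|)
      rw [uIcc_of_le (by linarith)]
      exact hlip.mono (Icc_subset_Icc (by linarith) (by linarith))
    obtain ⟨c, hc⟩ := hac.const_of_ae_hasDerivAt_zero (by
      filter_upwards [hae] with s hs hs1
      rw [uIcc_of_le (by linarith)] at hs1
      have hs2 : s ∈ Icc (x - 2 * r) (x + 2 * r) :=
        ⟨by linarith [hs1.1], by linarith [hs1.2]⟩
      have hd : DifferentiableAt ℝ g s :=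
        (hs hs2).differentiableAt (Icc_mem_nhds (by linarith [hs1.1]) (by linarith [hs1.2]))
      have hd' := hd.hasDerivAt
      have hd0 : HasDerivAt (fun t : ℝ => n ((O + s • u) + t • u) u) (deriv g s) 0 := by
        have h6 : HasDerivAt g (deriv g s) (s + 0) := by simpa using hd'
        have h7 := h6.comp_const_add s 0
        refine h7.congr_of_eventuallyEq (Eventually.of_forall fun t => ?_)
        simp only [hg]
        congr 1
        module
      have hz := h5 M d n H N hE (O + s • u) (hJM s hs2) u hu _ hd0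
      rw [hz] at hd'
      exact hd')
    rw [uIcc_of_le (by linarith)] at hc
    filter_upwards [Icc_mem_nhds (show x - r < x by linarith) (show x < x + r by linarith)]
      with y hy _
    rw [hc y hy, hc x ⟨by linarith, by linarith⟩]
  have h0 : (0 : ℝ) ∈ I := by simpa [hI] using hO
  have hfin := loc_const hIp _ key t ht 0 h0
  simpa using hfin

theorem bf_pos {A B C : ℝ} (hA : 0 < A) (hD : 0 < A * C - B ^ 2) {v : P} (hv : v ≠ 0) :
    0 < bf A B C v v := by
  have h1 : A * bf A B C v v = (A * v.1 + B * v.2) ^ 2 + (A * C - B ^ 2) * v.2 ^ 2 := by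
    simp only [bf]; ring
  have h2 : 0 < A * bf A B C v v := by
    rw [h1]
    by_cases h : v.2 = 0
    · have h3 : v.1 ≠ 0 := fun h' => hv (Prod.ext h' h)
      rw [h]
      have : A * v.1 ≠ 0 := mul_ne_zero hA.ne' h3
      have := sq_pos_of_ne_zero this
      nlinarith
    · have := sq_pos_of_ne_zero h
      nlinarith [sq_nonneg (A * v.1 + B * v.2), mul_pos hD this]
  by_contra h
  push Not at h
  nlinarith [mul_nonneg hA.le (neg_nonneg.2 h)]

theorem bf_symm (A B C : ℝ) (u v : P) : bf A B C u v = bf A B C v u := by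
  simp only [bf]; ring

/-- two vectors orthogonal to `v ≠ 0` are parallel -/
theorem par_of_bf {A B C : ℝ} (hA : 0 < A) (hD : 0 < A * C - B ^ 2) {v x y : P} (hv : v ≠ 0)
    (hx : bf A B C v x = 0) (hy : bf A B C v y = 0) : dt x y = 0 := by
  have h0 := bf_pos hA hD hv
  set α := A * v.1 + B * v.2 with hα
  set β := B * v.1 + C * v.2 with hβ
  have h1 : v.1 * α + v.2 * β = bf A B C v v := by simp only [bf, hα, hβ]; ring
  have h2 : α * x.1 + β * x.2 = 0 := by rw [← hx]; simp only [bf, hα, hβ]; ring
  have h3 : α * y.1 + β * y.2 = 0 := by rw [← hy]; simp only [bf, hα, hβ]; ring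
  have e1 : α * dt x y = 0 := by simp only [dt]; linear_combination y.2 * h2 - x.2 * h3
  have e2 : β * dt x y = 0 := by simp only [dt]; linear_combination x.1 * h3 - y.1 * h2
  have e3 : bf A B C v v * dt x y = 0 := by
    rw [← h1]; linear_combination v.1 * e1 + v.2 * e2
  exact (mul_eq_zero.1 e3).resolve_left h0.ne'

theorem T_dir : S_dir := by
  intro M d n H N hE hc O hO O' hO' u hu
  have hcont : ∀ Y ∈ M, ∀ᶠ Z in 𝓝 Y, Z ∈ M → n Z u = n Y u := by
    intro Y hY
    set v := n Y u with hv
    have huv : dt u v = 1 := N.n1 Y hY u hu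
    have hv0 : v ≠ 0 := by
      intro h0; rw [h0] at huv; simp [dt] at huv
    -- first step: `n Y1 u = v` implies `n Y1 v = -u`
    have inv : ∀ Z ∈ M, n Z u = v → n Z v = -u := by
      intro Z hZ hZu
      obtain ⟨A, B, C, hA, hD, hb⟩ := hE Z hZ
      have b1 := hb u hu
      rw [hZu] at b1
      have b2 := hb v hv0
      have hp := par_of_bf hA hD hv0 (by rw [bf_symm]; exact b1) b2
      obtain ⟨c, hc'⟩ := par_of_dt hu hp
      have h1 := N.n1 Z hZ v hv0
      rw [hc'] at h1
      have h2 : dt v (c • u) = -c * dt u v := by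
        simp only [dt, Prod.smul_fst, Prod.smul_snd, smul_eq_mul]; ring
      rw [h2, huv] at h1
      have : c = -1 := by linarith
      rw [hc', this, neg_one_smul]
    have inv' : ∀ Z ∈ M, n Z v = -u → n Z u = v := by
      intro Z hZ hZv
      obtain ⟨A, B, C, hA, hD, hb⟩ := hE Z hZ
      have b1 := hb u hu
      have b2 := hb v hv0
      rw [hZv] at b2
      have b3 : bf A B C u v = 0 := by
        rw [bf_symm]
        have : bf A B C v (-u) = - bf A B C v u := by
          simp only [bf, Prod.fst_neg, Prod.snd_neg]; ring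
        rw [this] at b2
        linarith
      have hp := par_of_bf hA hD hu b3 b1
      obtain ⟨c, hc'⟩ := par_of_dt hv0 hp
      have h1 := N.n1 Z hZ u hu
      rw [hc'] at h1
      have h2 : dt u (c • v) = c * dt u v := by
        simp only [dt, Prod.smul_fst, Prod.smul_snd, smul_eq_mul]; ring
      rw [h2, huv] at h1
      have : c = 1 := by linarith
      rw [hc', this, one_smul]
    -- coordinates
    have hcc : Continuous fun Z : P => Y + (dt (Z - Y) v) • u := by
      simp only [dt]; fun_prop
    have h0 : Y + (dt (Y - Y) v) • u ∈ M := by simpa [dt] using hY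
    filter_upwards [hcc.continuousAt.eventually (H.opn.mem_nhds h0)] with Z hZ1 hZM
    have eZ : Z = (Y + (dt (Z - Y) v) • u) + (dt u (Z - Y)) • v := by
      have hco : ∀ w : P, w = (dt w v) • u + (dt u w) • v := by
        intro w
        simp only [dt] at huv
        apply Prod.ext
        · simp only [dt, Prod.fst_add, Prod.smul_fst, smul_eq_mul]
          linear_combination (-w.1) * huv
        · simp only [dt, Prod.snd_add, Prod.smul_snd, smul_eq_mul]
          linear_combination (-w.2) * huv
      have := hco (Z - Y)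
      calc Z = Y + (Z - Y) := by abel
        _ = Y + ((dt (Z - Y) v) • u + (dt u (Z - Y)) • v) := by rw [← this]
        _ = _ := by abel
    have s1 : n (Y + (dt (Z - Y) v) • u) u = v := hc Y hY u hu _ hZ1
    have s2 := inv _ hZ1 s1
    have s3 : n Z v = -u := by
      have := hc _ hZ1 v hv0 (dt u (Z - Y)) (by rw [← eZ]; exact hZM)
      rw [← eZ] at this
      rw [this, s2]
    exact inv' Z hZM s3
  exact loc_const H.cvx.isPreconnected (fun Z => n Z u) hcont O hO O' hO'

end Pool.Agent.W193.PM
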