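import Pool.Agent.W553.PM.Stm

/-! PM-PERP: existence of the perpendicular field from `S_ray`. -/

set_option autoImplicit false

namespace Pool.Agent.W193.PM

open Set Filter Topology Pool.Agent.W553.PM

theorem dt_smul (u v : P) (a b : ℝ) : dt (a • u) (b • v) = a * b * dt u v := by
  simp only [dt, Prod.smul_fst, Prod.smul_snd, smul_eq_mul]; ring

theorem dt_neg_left (u v : P) : dt (-u) v = - dt u v := by
  simp only [dt, Prod.fst_neg, Prod.snd_neg]; ring

/-- vectors with vanishing determinant with `u ≠ 0` are multiples of `u` -/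
theorem par_of_dt {u w : P} (hu : u ≠ 0) (h : dt u w = 0) : ∃ t : ℝ, w = t • u := by
  have hn : u.1 ^ 2 + u.2 ^ 2 ≠ 0 := by
    intro h0
    apply hu
    have h1 : u.1 = 0 := by nlinarith [sq_nonneg u.1, sq_nonneg u.2]
    have h2 : u.2 = 0 := by nlinarith [sq_nonneg u.1, sq_nonneg u.2]
    exact Prod.ext h1 h2
  refine ⟨(u.1 * w.1 + u.2 * w.2) / (u.1 ^ 2 + u.2 ^ 2), ?_⟩
  simp only [dt] at h
  apply Prod.ext
  · simp only [Prod.smul_fst, smul_eq_mul]
    field_simp
    linear_combination (-u.2) * h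
  · simp only [Prod.smul_snd, smul_eq_mul]
    field_simp
    linear_combination (u.1) * h

variable {M : Set P} {d : P → P → ℝ}

/-- `O` is a nearest point of `X` on the line -/
def Near (M : Set P) (d : P → P → ℝ) (O u X : P) : Prop :=
  ∀ t : ℝ, O + t • u ∈ M → d X O ≤ d X (O + t • u)

theorem coll (H : PMet M d) {O u X X' : P} (hO : O ∈ M) (hu : u ≠ 0) (hX : X ∈ M) (hX' : X' ∈ M)
    (h1 : 0 < dt u (X - O)) (h2 : dt u (X' - O) < 0) (n1 : Near M d O u X)
    (n2 : Near M d O u X') : dt (X - O) (X' - O) = 0 := by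
  by_contra hne
  set A := dt u (X - O) with hA
  set B := dt u (X' - O) with hB
  have hAB : 0 < A - B := by linarith
  set s := A / (A - B) with hs
  have hs0 : 0 ≤ s := by positivity
  have hs1 : s ≤ 1 := by rw [hs, div_le_one hAB]; linarith
  set W : P := (1 - s) • X + s • X' with hW
  have hWM : W ∈ M := H.cvx hX hX' (by linarith) hs0 (by ring)
  have hWseg : W ∈ segment ℝ X X' := ⟨1 - s, s, by linarith, hs0, by ring, rfl⟩
  have hWd : dt u (W - O) = 0 := by
    have e : dt u (W - O) = (1 - s) * A + s * B := by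
      rw [hA, hB, hW]
      simp only [dt, Prod.fst_sub, Prod.snd_sub, Prod.fst_add, Prod.snd_add, Prod.smul_fst,
        Prod.smul_snd, smul_eq_mul]
      ring
    rw [e, hs]
    field_simp
    ring
  obtain ⟨t, ht⟩ := par_of_dt hu hWd
  have hWt : W = O + t • u := by rw [← ht]; abel
  have e1 := H.seg X hX W hWM X' hX' hWseg
  have e2 : d X O ≤ d X W := by
    have := n1 t (by rw [← hWt]; exact hWM)
    rwa [← hWt] at this
  have e3 : d X' O ≤ d X' W := by
    have := n2 t (by rw [← hWt]; exact hWM)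
    rwa [← hWt] at this
  have e4 := H.strict X hX O hO X' hX' (by
    intro h0
    apply hne
    simp only [dt, Prod.fst_sub, Prod.snd_sub] at h0 ⊢
    linarith)
  rw [H.symm O hO X' hX'] at e4
  rw [H.symm W hWM X' hX'] at e1
  linarith

theorem small_mem (H : PMet M d) {O : P} (hO : O ∈ M) (v : P) :
    ∀ᶠ l in 𝓝 (0 : ℝ), O + l • v ∈ M := by
  have hc : Continuous fun l : ℝ => O + l • v := by fun_prop
  have : O + (0 : ℝ) • v ∈ M := by simpa using hO
  exact hc.continuousAt.eventually (H.opn.mem_nhds this)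

theorem small_pos (H : PMet M d) {O : P} (hO : O ∈ M) (v w : P) :
    ∃ l : ℝ, 0 < l ∧ O + l • v ∈ M ∧ O + l • w ∈ M := by
  have h := (small_mem H hO v).and (small_mem H hO w)
  have h' : ∀ᶠ l in 𝓝[>] (0 : ℝ), O + l • v ∈ M ∧ O + l • w ∈ M :=
    h.filter_mono nhdsWithin_le_nhds
  obtain ⟨l, hl, hl0⟩ := (h'.and self_mem_nhdsWithin).exists
  exact ⟨l, hl0, hl.1, hl.2⟩

/-- The data of a perpendicular at one point. -/
theorem perp_at (h : S_ray) (H : PMet M d) {O : P} (hO : O ∈ M) {u : P} (hu : u ≠ 0) :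
    ∃ n : P, dt u n = 1 ∧ (∀ l : ℝ, O + l • n ∈ M → Near M d O u (O + l • n)) ∧
      ∀ X ∈ M, Near M d O u X → ∃ l : ℝ, X = O + l • n := by
  obtain ⟨v, hv, hvn⟩ := h M d H O hO u hu
  obtain ⟨v0, hv0, hvn0⟩ := h M d H O hO (-u) (neg_ne_zero.2 hu)
  rw [dt_neg_left] at hv0
  have hvn0' : ∀ l : ℝ, 0 < l → O + l • v0 ∈ M → Near M d O u (O + l • v0) := by
    intro l hl hm t ht
    have := hvn0 l hl hm (-t) (by simpa using ht)
    simpa using this
  have hvn' : ∀ l : ℝ, 0 < l → O + l • v ∈ M → Near M d O u (O + l • v) := fun l hl hm t ht =>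
    hvn l hl hm t ht
  obtain ⟨l0, hl0, hm1, hm2⟩ := small_pos H hO v v0
  have sub1 : ∀ (l : ℝ) (w : P), O + l • w - O = l • w := fun l w => by abel
  have dtu : ∀ (l : ℝ) (w : P), dt u (l • w) = l * dt u w := fun l w => by
    simp only [dt, Prod.smul_fst, Prod.smul_snd, smul_eq_mul]; ring
  have hv_ne : v ≠ 0 := by
    rintro rfl; simp [dt] at hv
  have hc0 := coll H hO hu hm1 hm2 (by rw [sub1, dtu]; positivity)
    (by rw [sub1, dtu]; nlinarith) (hvn' l0 hl0 hm1) (hvn0' l0 hl0 hm2)
  rw [sub1, sub1, dt_smul] at hc0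
  have hvv : dt v v0 = 0 := by
    rcases mul_eq_zero.1 hc0 with h' | h'
    · exact absurd h' (by positivity)
    · exact h'
  obtain ⟨c, hc⟩ := par_of_dt hv_ne hvv
  have hcneg : c < 0 := by
    rw [hc, dtu] at hv0
    by_contra h'
    push Not at h'
    nlinarith
  set n : P := (dt u v)⁻¹ • v with hn
  have hnv : v = (dt u v) • n := by
    rw [hn, smul_smul, mul_inv_cancel₀ hv.ne', one_smul]
  have hdn : dt u n = 1 := by rw [hn, dtu, inv_mul_cancel₀ hv.ne']
  have hfoot : ∀ l : ℝ, O + l • n ∈ M → Near M d O u (O + l • n) := by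
    intro l hm
    rcases lt_trichotomy l 0 with hl | hl | hl
    · have e : l • n = (l / (dt u v * c)) • v0 := by
        have hcne : c ≠ 0 := hcneg.ne
        rw [hc, hn, smul_smul, smul_smul]
        congr 1
        field_simp
      have hpos : 0 < l / (dt u v * c) :=
        div_pos_of_neg_of_neg hl (mul_neg_of_pos_of_neg hv hcneg)
      rw [e] at hm ⊢
      exact hvn0' _ hpos hm
    · subst hl
      intro t ht
      simp only [zero_smul, add_zero] at hm ⊢
      rw [H.self hO]
      exact H.nonneg hO ht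
    · have e : l • n = (l / (dt u v)) • v := by
        rw [hn, smul_smul]; congr 1
      have hpos : 0 < l / (dt u v) := by positivity
      rw [e] at hm ⊢
      exact hvn' _ hpos hm
  refine ⟨n, hdn, hfoot, ?_⟩
  intro X hX hXn
  rcases lt_trichotomy (dt u (X - O)) 0 with hl | hl | hl
  · have h1 := coll H hO hu hm1 hX (by rw [sub1, dtu]; positivity) hl (hvn' l0 hl0 hm1) hXn
    rw [sub1] at h1
    have h2 : dt v (X - O) = 0 := by
      have : dt (l0 • v) (X - O) = l0 * dt v (X - O) := by
        simp only [dt, Prod.smul_fst, Prod.smul_snd, smul_eq_mul]; ring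
      rw [this] at h1
      rcases mul_eq_zero.1 h1 with h' | h'
      · exact absurd h' hl0.ne'
      · exact h'
    obtain ⟨t, ht⟩ := par_of_dt hv_ne h2
    refine ⟨t * dt u v, ?_⟩
    rw [← smul_smul, ← hnv, ← ht]; abel
  · obtain ⟨t, ht⟩ := par_of_dt hu hl
    have hXt : X = O + t • u := by rw [← ht]; abel
    have h1 := hXn t (by rw [← hXt]; exact hX)
    rw [← hXt, H.self hX] at h1
    have h2 : X = O := by
      by_contra hne
      have := H.pos hX hO hne
      linarith
    exact ⟨0, by simp [h2]⟩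
  · have h1 := coll H hO hu hX hm2 hl (by rw [sub1, dtu]; nlinarith) hXn (hvn0' l0 hl0 hm2)
    rw [sub1] at h1
    have h2 : dt v (X - O) = 0 := by
      rw [hc] at h1
      have : dt (X - O) (l0 • c • v) = - (l0 * c) * dt v (X - O) := by
        simp only [dt, Prod.smul_fst, Prod.smul_snd, smul_eq_mul]; ring
      rw [this] at h1
      rcases mul_eq_zero.1 h1 with h' | h'
      · exact absurd h' (neg_ne_zero.2 (mul_ne_zero hl0.ne' hcneg.ne))
      · exact h'
    obtain ⟨t, ht⟩ := par_of_dt hv_ne h2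
    refine ⟨t * dt u v, ?_⟩
    rw [← smul_smul, ← hnv, ← ht]; abel

theorem T_perp (h : S_ray) : S_perp := by
  classical
  intro M d H
  choose! f hf1 hf2 hf3 using fun (O : P) (hO : O ∈ M) (u : P) (hu : u ≠ 0) => perp_at h H hO hu
  refine ⟨f, ⟨fun O hO u hu => hf1 O hO u hu, ?_, fun O hO u hu X hX hN => hf3 O hO u hu X hX hN⟩⟩
  intro O hO u hu l t ht hl hY
  set n := f O u with hn
  have hdn : dt u n = 1 := hf1 O hO u hu
  have hfoot := hf2 O hO u hu
  set X := O + l • n with hX
  set Y := O + t • u with hYd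
  by_cases hl0 : l = 0
  · have hXO : X = O := by rw [hX, hl0]; simp
    rw [hXO, H.self hO]
    apply H.pos hO hY
    intro h0
    have h1 : t • u = 0 := by
      have : Y - O = 0 := by rw [← h0]; simp
      rw [hYd] at this
      simpa using this
    rcases smul_eq_zero.1 h1 with h' | h'
    · exact ht h'
    · exact hu h'
  · by_contra hcon
    push Not at hcon
    -- choose a slightly larger parameter
    have hc : Continuous fun s : ℝ => O + (l * (1 + s)) • n := by fun_prop
    have h0M : O + (l * (1 + 0)) • n ∈ M := by simpa using hl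
    have hev : ∀ᶠ s in 𝓝 (0 : ℝ), O + (l * (1 + s)) • n ∈ M :=
      hc.continuousAt.eventually (H.opn.mem_nhds h0M)
    have hev' : ∀ᶠ s in 𝓝[>] (0 : ℝ), O + (l * (1 + s)) • n ∈ M :=
      hev.filter_mono nhdsWithin_le_nhds
    obtain ⟨s, hs, hs0⟩ := (hev'.and self_mem_nhdsWithin).exists
    have hs0' : 0 < s := hs0
    set X2 := O + (l * (1 + s)) • n with hX2
    have hseg : X ∈ segment ℝ X2 O := by
      refine ⟨1 / (1 + s), s / (1 + s), by positivity, by positivity, by field_simp, ?_⟩
      rw [hX, hX2]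
      apply Prod.ext
      · simp only [Prod.fst_add, Prod.smul_fst, smul_eq_mul]
        field_simp
        ring
      · simp only [Prod.snd_add, Prod.smul_snd, smul_eq_mul]
        field_simp
        ring
    have e1 := H.seg X2 hs X hl O hO hseg
    have e2 := H.strict X2 hs X hl Y hY (by
      have : dt (X - X2) (Y - X2) = l * s * t * dt u n := by
        rw [hX, hX2, hYd]
        simp only [dt, Prod.fst_sub, Prod.snd_sub, Prod.fst_add, Prod.snd_add, Prod.smul_fst,
          Prod.smul_snd, smul_eq_mul]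
        ring
      rw [this, hdn, mul_one]
      exact mul_ne_zero (mul_ne_zero hl0 hs0'.ne') ht)
    have e3 := hfoot (l * (1 + s)) hs t hY
    have e3' : d X2 O ≤ d X2 Y := e3
    linarith

end Pool.Agent.W193.PM
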