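import Pool.Agent.W193.PM.Perp

/-! PM-RAY: a full perpendicular ray from `S_rev`. -/

set_option autoImplicit false

namespace Pool.Agent.W193.PM

open Set Filter Topology Pool.Agent.W553.PM

variable {M : Set P} {d : P → P → ℝ}

theorem mem_Ln_iff {O u X : P} (hu : u ≠ 0) : X ∈ Ln O u ↔ dt u (X - O) = 0 := by
  constructor
  · rintro ⟨t, rfl⟩
    simp only [dt, Prod.fst_sub, Prod.snd_sub, Prod.fst_add, Prod.snd_add, Prod.smul_fst,
      Prod.smul_snd, smul_eq_mul]
    ring
  · intro h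
    obtain ⟨t, ht⟩ := par_of_dt hu h
    exact ⟨t, by rw [← ht]; abel⟩

/-- a point strictly inside the parabola, moved in the direction of the axis, is not on the
parabola -/
theorem not_par {a b c : P} (h : dt b c ≠ 0) {x y s : ℝ} (hxy : x ^ 2 < y) (hs : 0 ≤ s) :
    a + x • b + (y + s) • c ∉ Par a b c := by
  rintro ⟨t, ht⟩
  simp only at ht
  have e : (x - t) • b + (y + s - t ^ 2) • c = 0 := by
    have : (x - t) • b + (y + s - t ^ 2) • c =
        (a + x • b + (y + s) • c) - (a + t • b + t ^ 2 • c) := by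
      module
    rw [this, ht, sub_self]
  have e1 : (x - t) * dt b c = 0 := by
    have h1 := congrArg Prod.fst e
    have h2 := congrArg Prod.snd e
    simp only [Prod.fst_add, Prod.snd_add, Prod.smul_fst, Prod.smul_snd, smul_eq_mul,
      Prod.fst_zero, Prod.snd_zero] at h1 h2
    simp only [dt]
    linear_combination c.2 * h1 - c.1 * h2
  have e2 : (y + s - t ^ 2) * dt b c = 0 := by
    have h1 := congrArg Prod.fst e
    have h2 := congrArg Prod.snd e
    simp only [Prod.fst_add, Prod.snd_add, Prod.smul_fst, Prod.smul_snd, smul_eq_mul,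
      Prod.fst_zero, Prod.snd_zero] at h1 h2
    simp only [dt]
    linear_combination b.1 * h2 - b.2 * h1
  have f1 := (mul_eq_zero.1 e1).resolve_right h
  have f2 := (mul_eq_zero.1 e2).resolve_right h
  have : t = x := by linarith
  subst this
  linarith

/-- The claim for one focus. -/
theorem one_focus (H : PMet M d) {O u F a b c : P} (hO : O ∈ M) (hu : u ≠ 0) (hF : F ∈ M)
    (hFd : 0 < dt u (F - O)) (hbc : dt b c ≠ 0)
    (hset : {X | X ∈ M ∧ d X F = hL M d O u X} = M ∩ Par a b c)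
    (hin : ∃ x y : ℝ, F = a + x • b + y • c ∧ x ^ 2 < y) (l : ℝ) (hl : 0 ≤ l)
    (hX : F + l • ((‖c‖)⁻¹ • c) ∈ M) :
    d (F + l • ((‖c‖)⁻¹ • c)) F < hL M d O u (F + l • ((‖c‖)⁻¹ • c)) ∧
      0 < dt u (F + l • ((‖c‖)⁻¹ • c) - O) := by
  obtain ⟨x, y, hFe, hxy⟩ := hin
  have hFn : F ∉ Ln O u := by rw [mem_Ln_iff hu]; exact hFd.ne'
  have hc0 : c ≠ 0 := by rintro rfl; simp [dt] at hbc
  have hcn : 0 < ‖c‖ := norm_pos_iff.2 hc0
  set γ : ℝ → P := fun s => F + s • ((‖c‖)⁻¹ • c) with hγ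
  have hγc : Continuous γ := by fun_prop
  have hγM : ∀ s ∈ Icc 0 l, γ s ∈ M := by
    intro s hs
    rcases eq_or_lt_of_le hl with h0 | h0
    · have : s = 0 := le_antisymm (by rw [h0]; exact hs.2) hs.1
      rw [this]; simpa [hγ] using hF
    · have e : γ s = (1 - s / l) • F + (s / l) • (F + l • ((‖c‖)⁻¹ • c)) := by
        have hl' : l ≠ 0 := h0.ne'
        have e1 : (s / l) • (F + l • ((‖c‖)⁻¹ • c)) = (s / l) • F + s • ((‖c‖)⁻¹ • c) := by
          rw [smul_add, smul_smul (s / l) l, div_mul_cancel₀ s hl']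
        rw [e1, hγ]
        module
      rw [e]
      exact H.cvx hF hX (by rw [sub_nonneg, div_le_one h0]; exact hs.2)
        (div_nonneg hs.1 hl) (by ring)
  set g : ℝ → ℝ := fun s => d (γ s) F - hL M d O u (γ s) with hg
  have hgc : ContinuousOn g (Icc 0 l) :=
    ((H.cont_left hF).comp hγc.continuousOn hγM).sub ((hL_cont H hO).comp hγc.continuousOn hγM)
  have hg0 : g 0 < 0 := by
    have : γ 0 = F := by simp [hγ]
    simp only [hg, this, H.self hF]
    have := hL_pos H (u := u) hO hF hFn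
    linarith
  have hgne : ∀ s ∈ Icc 0 l, g s ≠ 0 := by
    intro s hs h0
    have hm : γ s ∈ {X | X ∈ M ∧ d X F = hL M d O u X} :=
      ⟨hγM s hs, by have : d (γ s) F - hL M d O u (γ s) = 0 := h0
                    linarith⟩
    rw [hset] at hm
    have e : γ s = a + x • b + (y + s * (‖c‖)⁻¹) • c := by
      simp only [hγ]
      rw [hFe, smul_smul, add_smul]
      abel
    rw [e] at hm
    exact not_par hbc hxy (mul_nonneg hs.1 (inv_nonneg.2 hcn.le)) hm.2
  have hgneg : ∀ s ∈ Icc 0 l, g s < 0 := by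
    intro s hs
    by_contra hcon
    push Not at hcon
    have hsub : Icc 0 s ⊆ Icc 0 l := Icc_subset_Icc_right hs.2
    obtain ⟨r, hr, hr0⟩ := intermediate_value_Icc hs.1 (hgc.mono hsub) ⟨hg0.le, hcon⟩
    exact hgne r (hsub hr) hr0
  have hlast := hgneg l ⟨hl, le_rfl⟩
  refine ⟨by have : d (γ l) F - hL M d O u (γ l) < 0 := hlast
             linarith, ?_⟩
  -- determinant does not vanish
  have hdc : Continuous fun s => dt u (γ s - O) := by
    simp only [hγ, dt]
    fun_prop
  have hdne : ∀ s ∈ Icc 0 l, dt u (γ s - O) ≠ 0 := by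
    intro s hs h0
    have h1 : γ s ∈ Ln O u := (mem_Ln_iff hu).2 h0
    have h2 := hL_zero H hO (hγM s hs) h1
    have h3 : d (γ s) F - hL M d O u (γ s) < 0 := hgneg s hs
    rw [h2] at h3
    have h4 := H.nonneg (hγM s hs) hF
    linarith
  by_contra hcon
  push Not at hcon
  have h0 : 0 ≤ dt u (γ 0 - O) := by simpa [hγ] using hFd.le
  obtain ⟨r, hr, hr0⟩ := intermediate_value_Icc' hl hdc.continuousOn ⟨hcon, h0⟩
  exact hdne r hr hr0

theorem T_ray (h : S_rev) : S_ray := by
  intro M d H O hO u hu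
  obtain ⟨ρ, hρ, hrev⟩ := h M d H O hO u hu
  have hun : 0 < u.1 ^ 2 + u.2 ^ 2 := by
    by_contra hcon
    push Not at hcon
    apply hu
    have h1 : u.1 = 0 := by nlinarith [sq_nonneg u.1, sq_nonneg u.2]
    have h2 : u.2 = 0 := by nlinarith [sq_nonneg u.1, sq_nonneg u.2]
    exact Prod.ext h1 h2
  set w : P := (-u.2, u.1) with hw
  have hdw : dt u w = u.1 ^ 2 + u.2 ^ 2 := by simp only [dt, hw]; ring
  -- the sequence of foci
  have hev : ∀ᶠ s in 𝓝[>] (0 : ℝ), O + s • w ∈ M ∧ dist (O + s • w) O < ρ := by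
    have h1 := small_mem H hO w
    have hc : Continuous fun s : ℝ => dist (O + s • w) O := by fun_prop
    have h2 : ∀ᶠ s in 𝓝 (0 : ℝ), dist (O + s • w) O < ρ := by
      have : dist (O + (0 : ℝ) • w) O < ρ := by simpa using hρ
      exact hc.continuousAt.eventually (Iio_mem_nhds this)
    exact (h1.and h2).filter_mono nhdsWithin_le_nhds
  have hseq : Tendsto (fun k : ℕ => (1 / ((k : ℝ) + 1))) atTop (𝓝[>] 0) := by
    refine tendsto_nhdsWithin_iff.2 ⟨tendsto_one_div_add_atTop_nhds_zero_nat, ?_⟩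
    exact Eventually.of_forall fun k => by
      simp only [mem_Ioi]; positivity
  obtain ⟨K, hK⟩ := eventually_atTop.1 (hseq.eventually hev)
  set τ : ℕ → ℝ := fun k => 1 / (((k + K : ℕ) : ℝ) + 1) with hτ
  have hτpos : ∀ k, 0 < τ k := fun k => by simp only [hτ]; positivity
  have hτlim : Tendsto τ atTop (𝓝 0) :=
    tendsto_one_div_add_atTop_nhds_zero_nat.comp (tendsto_add_atTop_nat K)
  set F : ℕ → P := fun k => O + τ k • w with hFdef
  have hFM : ∀ k, F k ∈ M := fun k => (hK (k + K) (Nat.le_add_left _ _)).1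
  have hFρ : ∀ k, dist (F k) O < ρ := fun k => (hK (k + K) (Nat.le_add_left _ _)).2
  have hFd : ∀ k, 0 < dt u (F k - O) := by
    intro k
    have : dt u (F k - O) = τ k * dt u w := by
      simp only [hFdef, dt, Prod.fst_sub, Prod.snd_sub, Prod.fst_add, Prod.snd_add,
        Prod.smul_fst, Prod.smul_snd, smul_eq_mul]
      ring
    rw [this, hdw]
    exact mul_pos (hτpos k) hun
  have hFlim : Tendsto F atTop (𝓝 O) := by
    have : Tendsto (fun k => O + τ k • w) atTop (𝓝 (O + (0 : ℝ) • w)) :=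
      (hτlim.smul_const w).const_add O
    simpa using this
  have hpar : ∀ k, ∃ a b c : P, dt b c ≠ 0 ∧
      {X | X ∈ M ∧ d X (F k) = hL M d O u X} = M ∩ Par a b c ∧
      ∃ x y : ℝ, F k = a + x • b + y • c ∧ x ^ 2 < y := by
    intro k
    obtain ⟨a, b, c, hbc, hset⟩ := H.conic O hO u hu (F k) (hFM k)
      (by rw [mem_Ln_iff hu]; exact (hFd k).ne')
    exact ⟨a, b, c, hbc, hset, hrev (F k) (hFM k) (hFρ k) (hFd k) a b c hbc hset⟩
  choose a b c hbc hset hin using hpar
  have hc0 : ∀ k, c k ≠ 0 := fun k h0 => by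
    have := hbc k; rw [h0] at this; simp [dt] at this
  set v : ℕ → P := fun k => (‖c k‖)⁻¹ • c k with hv
  have hvn : ∀ k, v k ∈ Metric.sphere (0 : P) 1 := by
    intro k
    rw [mem_sphere_zero_iff_norm, hv]
    simp only [norm_smul, norm_inv, norm_norm]
    exact inv_mul_cancel₀ (norm_ne_zero_iff.2 (hc0 k))
  obtain ⟨v', hv', φ, hφ, hlim⟩ := (isCompact_sphere (0 : P) 1).tendsto_subseq hvn
  have hv'n : ‖v'‖ = 1 := mem_sphere_zero_iff_norm.1 hv'
  have hFφ : Tendsto (fun k => F (φ k)) atTop (𝓝 O) := hFlim.comp hφ.tendsto_atTop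
  have hXlim : ∀ l : ℝ, Tendsto (fun k => F (φ k) + l • v (φ k)) atTop (𝓝 (O + l • v')) :=
    fun l => hFφ.add (hlim.const_smul l)
  have hkey : ∀ l : ℝ, 0 < l → O + l • v' ∈ M → ∀ᶠ k in atTop,
      F (φ k) + l • v (φ k) ∈ M ∧ d (F (φ k) + l • v (φ k)) (F (φ k)) <
        hL M d O u (F (φ k) + l • v (φ k)) ∧ 0 < dt u (F (φ k) + l • v (φ k) - O) := by
    intro l hl hm
    filter_upwards [(hXlim l).eventually (H.opn.mem_nhds hm)] with k hk
    have := one_focus H hO hu (hFM (φ k)) (hFd (φ k)) (hbc (φ k)) (hset (φ k)) (hin (φ k)) l hl.le hk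
    exact ⟨hk, this.1, this.2⟩
  have claim : ∀ l : ℝ, 0 < l → O + l • v' ∈ M → ∀ t : ℝ, O + t • u ∈ M →
      d (O + l • v') O ≤ d (O + l • v') (O + t • u) := by
    intro l hl hm t ht
    have hc1 : Tendsto (fun k => d (F (φ k) + l • v (φ k)) (F (φ k))) atTop
        (𝓝 (d (O + l • v') O)) := by
      have hcw := H.cont (O + l • v', O) ⟨hm, hO⟩
      have ht2 : Tendsto (fun k => (F (φ k) + l • v (φ k), F (φ k))) atTop
          (𝓝[M ×ˢ M] (O + l • v', O)) := by
        refine tendsto_nhdsWithin_iff.2 ⟨(hXlim l).prodMk_nhds hFφ, ?_⟩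
        filter_upwards [hkey l hl hm] with k hk
        exact ⟨hk.1, hFM _⟩
      exact hcw.tendsto.comp ht2
    have hc2 : Tendsto (fun k => d (F (φ k) + l • v (φ k)) (O + t • u)) atTop
        (𝓝 (d (O + l • v') (O + t • u))) := by
      have hcw := H.cont_left ht (O + l • v') hm
      have ht2 : Tendsto (fun k => F (φ k) + l • v (φ k)) atTop (𝓝[M] (O + l • v')) := by
        refine tendsto_nhdsWithin_iff.2 ⟨hXlim l, ?_⟩
        filter_upwards [hkey l hl hm] with k hk using hk.1
      exact hcw.tendsto.comp ht2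
    refine le_of_tendsto_of_tendsto hc1 hc2 ?_
    filter_upwards [hkey l hl hm] with k hk
    exact hk.2.1.le.trans (hL_le_t H hk.1 ht)
  refine ⟨v', ?_, claim⟩
  obtain ⟨l, hl, hm, _⟩ := small_pos H hO v' v'
  have hge : 0 ≤ dt u (O + l • v' - O) := by
    have hdc : Continuous fun X : P => dt u (X - O) := by
      simp only [dt]; fun_prop
    refine ge_of_tendsto ((hdc.tendsto _).comp (hXlim l)) ?_
    filter_upwards [hkey l hl hm] with k hk using hk.2.2.le
  have hge' : 0 ≤ dt u v' := by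
    have e : dt u (O + l • v' - O) = l * dt u v' := by
      simp only [dt, Prod.fst_sub, Prod.snd_sub, Prod.fst_add, Prod.snd_add,
        Prod.smul_fst, Prod.smul_snd, smul_eq_mul]
      ring
    rw [e] at hge
    exact nonneg_of_mul_nonneg_right hge hl
  rcases eq_or_lt_of_le hge' with h0 | h0
  · exfalso
    obtain ⟨s, hs⟩ := par_of_dt hu h0.symm
    have e : O + l • v' = O + (l * s) • u := by rw [hs, smul_smul]
    have h1 := claim l hl hm (l * s) (by rw [← e]; exact hm)
    rw [← e, H.self hm] at h1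
    have h2 : O + l • v' = O := by
      by_contra hne
      have := H.pos hm hO hne
      linarith
    have h3 : l • v' = 0 := by
      have := congrArg (fun X => X - O) h2
      simpa using this
    rcases smul_eq_zero.1 h3 with h' | h'
    · exact hl.ne' h'
    · rw [h', norm_zero] at hv'n
      exact zero_ne_one hv'n
  · exact h0

end Pool.Agent.W193.PM
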